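import Pool.Agent.H97.HV.Targets
import Pool.Agent.H54.CL.Law
import Pool.Agent.H75.PRK.EQB

/-!
# CLO. Closure (MP_e37c09_lc, helper79)
-/

open Ordinal Cardinal Order Set
open scoped ZFSet

universe u

namespace Pool.Agent.H79.HV

open _root_.HD HD.PRK HD.HV Pool.Agent.H45.NF

/-- the intersection with an ordinal definable set -/
theorem odp_inter {p x B : ZFSet.{u}} (h : NF.ODp p x) (hB : OD B) : NF.ODp p (x ∩ B) := by
  obtain ⟨Q, hQ, hd⟩ := ODp.def h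
  refine ODp.of_dz (Q := fun v => ∀ w, w ∈ v 0 ↔ (∃ x', Q (cons x' fun _ => v 1) ∧ w ∈ x') ∧
    w ∈ B) ?_ fun y => ?_
  · refine DZ.od (R := fun B v => ∀ w, w ∈ v 0 ↔ (∃ x', Q (cons x' fun _ => v 1) ∧ w ∈ x') ∧
      w ∈ B) hB ?_
    refine DZ.all (R := fun w v => w ∈ v 1 ↔ (∃ x', Q (cons x' fun _ => v 2) ∧ w ∈ x') ∧
      w ∈ v 0) ?_
    refine DZ.iff (DZ.mem 0 2) (DZ.and ?_ (DZ.mem 0 1))
    refine DZ.ex (R := fun x' v => Q (cons x' fun _ => v 3) ∧ v 0 ∈ x') (DZ.and ?_ (DZ.mem 1 0))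
    refine (hQ.ren fun n => if n = 0 then 0 else 4).congr fun v => ?_
    have : (cons (v 0) fun _ => v 4) = fun n => v (if n = 0 then 0 else 4) := by
      funext n
      rcases n with _ | n <;> simp
    rw [← this]
  · show (∀ w, w ∈ y ↔ (∃ x', Q (cons x' fun _ => p) ∧ w ∈ x') ∧ w ∈ B) ↔ y = x ∩ B
    constructor
    · intro h1
      ext w
      rw [h1, ZFSet.mem_inter]
      constructor
      · rintro ⟨⟨x', h2, h3⟩, h4⟩
        rw [hd] at h2
        exact ⟨h2 ▸ h3, h4⟩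
      · rintro ⟨h2, h3⟩
        exact ⟨⟨x, (hd x).2 rfl, h2⟩, h3⟩
    · rintro rfl w
      rw [ZFSet.mem_inter]
      constructor
      · rintro ⟨h2, h3⟩
        exact ⟨⟨x, (hd x).2 rfl, h2⟩, h3⟩
      · rintro ⟨⟨x', h2, h3⟩, h4⟩
        rw [hd] at h2
        exact ⟨h2 ▸ h3, h4⟩

theorem clo_clb {K : Cardinal.{u}} (hK : K.IsRegular) (hK0 : ℵ₀ < K) (g : Ordinal.{u})
    (h : Ordinal.{u} → Ordinal.{u}) (hh : ∀ z < K.ord, h z < K.ord) :
    Clb K.ord {ξ | IsSuccLimit ξ ∧ (∀ z < ξ, h z < ξ) ∧ (g < K.ord → g < ξ)} := by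
  have hlim : IsSuccLimit K.ord := Cardinal.isSuccLimit_ord hK.1
  refine ⟨fun a ha => ?_, fun x hx hx0 hc => ⟨?_, ?_, ?_⟩⟩
  · obtain ⟨a', ha', haa, hga⟩ : ∃ a' < K.ord, a ≤ a' ∧ (g < K.ord → g ≤ a') := by
      by_cases hg : g < K.ord
      · exact ⟨max a g, max_lt ha hg, le_max_left _ _, fun _ => le_max_right _ _⟩
      · exact ⟨a, ha, le_refl _, fun h => absurd h hg⟩
    obtain ⟨x, hx, s, hs0, hsx, hsP, hsy⟩ := Pool.Agent.H3.HD.exists_iter (ρ := K.ord)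
      (by rw [hK.cof_ord]; exact hK0) (fun b b' => ∀ z ≤ b, h z < b') (fun b hb => by
        obtain ⟨s, hs, h1⟩ := Pool.Agent.H54.CL.bd1 hK hb h fun i hi => hh i (hi.trans_lt hb)
        refine ⟨max (succ s) (succ b), max_lt (hlim.succ_lt hs) (hlim.succ_lt hb),
          lt_of_lt_of_le (Order.lt_succ b) (le_max_right _ _), fun z hz => ?_⟩
        exact (Order.lt_succ_of_le (h1 z hz)).trans_le (le_max_left _ _)) a' ha'
    have h0 : a' < x := by rw [← hs0]; exact hsx 0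
    refine ⟨x, hx, haa.trans_lt h0, ?_, fun z hz => ?_, fun hg => (hga hg).trans_lt h0⟩
    · rw [Ordinal.isSuccLimit_iff]
      refine ⟨(bot_le.trans_lt h0).ne', ?_⟩
      rw [isSuccPrelimit_iff_succ_lt]
      intro b hb
      obtain ⟨n, hn⟩ := hsy b hb
      exact (succ_le_of_lt hn).trans_lt (hsx n)
    · obtain ⟨n, hn⟩ := hsy z hz
      exact (hsP n z hn.le).trans (hsx (n + 1))
  · rw [Ordinal.isSuccLimit_iff]
    refine ⟨hx0.ne', ?_⟩
    rw [isSuccPrelimit_iff_succ_lt]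
    intro b hb
    obtain ⟨z, hz, hbz, _⟩ := hc b hb
    exact (succ_le_of_lt hbz).trans_lt hz
  · intro z hz
    obtain ⟨w, hw, hzw, hC⟩ := hc z hz
    exact (hC.2.1 z hzw).trans hw
  · intro hg
    obtain ⟨w, hw, _, hC⟩ := hc 0 hx0
    exact (hC.2.2 hg).trans hw

theorem pf_CLO (h0 : T_PVA.{u}) : T_CLO.{u} := by
  intro K hK hK0 γ hγ e he
  have hmin : min γ K.ord = γ := min_eq_left hγ.le
  have hex : ∀ z : Ordinal.{u}, ∃ a : ZFSet.{u}, a ∈ V_ γ ∧ NF.ODp a (e z) := by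
    intro z
    have h1 := (he z).1
    rw [hmin] at h1
    unfold NV at h1
    rw [ZFSet.hereditarily_iff] at h1
    exact h1.1
  choose a ha hoa using hex
  have hrk : ∀ z, (a z).rank < γ := fun z => by
    rw [← ZFSet.mem_vonNeumann]
    exact ha z
  refine ⟨_, clo_clb hK hK0 γ (fun z => (a z).rank) (fun z _ => (hrk z).trans_le hγ.le), ?_⟩
  rintro ξ ⟨h1, h2, h3⟩ hξ
  refine ⟨h1, fun z hz => ?_⟩
  have hm : a z ∈ V_ (min γ ξ) := by
    rw [ZFSet.mem_vonNeumann]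
    exact lt_min (hrk z) (h2 z hz)
  have hVo : OD (V_ ξ) := HD.NF.od_V ξ
  refine ⟨⟨a z, hm, hoa z⟩, ?_, ?_⟩
  · unfold NV
    rw [ZFSet.hereditarily_iff]
    refine ⟨⟨a z, hm, odp_inter (hoa z) hVo⟩, fun y hy => ?_⟩
    rw [ZFSet.mem_inter] at hy
    by_cases hg : γ < K.ord
    · rw [min_eq_left (h3 hg).le]
      have h4 := (he z).1
      rw [hmin] at h4
      unfold NV at h4
      rw [ZFSet.hereditarily_iff] at h4
      exact h4.2 y hy.1
    · have h5 : ξ ≤ γ := hξ.le.trans (not_lt.1 hg)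
      rw [min_eq_right h5]
      exact h0.2.1 ξ h1 y hy.2
  · intro y hy
    rw [ZFSet.mem_inter] at hy
    exact hy.2

end Pool.Agent.H79.HV
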