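import Pool.Agent.H97.HV.Targets4
import Pool.Agent.H97.PRK.All

/-!
# MP_e37c09_lc, row NSE: from club many points to one point
-/

open Ordinal Cardinal Order Set
open scoped ZFSet

universe u

namespace Pool.Agent.H79.HV

open _root_.HD HD.PRK HD.HV

/-- NSE. From club many points to one point. -/
theorem pf_NSE : HD.HW.T_NSE.{u} := by
  intro δ hδ K hK hδK γ hγ hC
  obtain ⟨η, -, θ, j, h0⟩ := HD.All.xa δ hδ 0
  obtain ⟨D, hD, -, hDs, hD0⟩ := HD.All.xb δ η θ j h0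
  have hD1 : succ ℵ₀ < D := hDs.isSuccLimit.succ_lt hD0
  have hD1' : (succ ℵ₀ : Cardinal.{u}).ord < δ := by
    rw [hD]
    exact Cardinal.ord_lt_ord.2 hD1
  have hDK : D < K := by
    rw [hD] at hδK
    exact Cardinal.ord_lt_ord.1 hδK
  have hK0 : ℵ₀ < K := hD0.trans hDK
  have hcof : ℵ₀ < K.ord.cof := by
    rw [hK.cof_ord]
    exact hK0
  obtain ⟨C, hC, h1⟩ := hC
  have hgt := Pool.Agent.H97.PRK.clb_gt hK0.le hδK
  have hpos := HD.All.vc (succ ℵ₀) K.ord (Cardinal.isRegular_succ le_rfl)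
    (by rw [hK.cof_ord]; exact hD1.trans hDK)
  obtain ⟨x, hx, ⟨h2, h3⟩, -, h4⟩ := hpos _ (HD.All.ci K.ord C _ hcof hC hgt)
  have h5 : x.cof.ord = (succ ℵ₀ : Cardinal.{u}).ord := h4
  have h6 : ℵ₀ < x.cof := by
    rw [Cardinal.ord_injective h5]
    exact lt_succ _
  obtain ⟨hlim, M, jj, h⟩ := h1 x h2 hx h6
  refine ⟨x, h3, hx, hlim, ?_, M, jj, h.tra, h.map, h.elem, fun a ha => ?_, ?_⟩
  · rw [h5]
    exact hD1'
  · have hmem : a.toZFSet ∈ V_ x := by
      rw [ZFSet.mem_vonNeumann, rank_toZFSet]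
      exact ha
    exact h.emb.fix _ (HD.HW.nv_ord (HD.HW.lmin hγ hlim) a) hmem
  · rw [h.emb.crit]
    intro h7
    exact hx.ne (toZFSet_injective h7).symm

end Pool.Agent.H79.HV
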